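import Pool.Agent.V11283.KD.A
import Pool.Agent.V11283.KD.B

set_option autoImplicit false

/-!
# Arrays `A_r^*` for all `r ≡ 5 mod 8`, `r ≢ 1 mod 9`

`Good r` is Keedwell's condition for the order `r` (definition in the starting file
`SevenModEight`), equivalent to the existence of an array `A_r^*`. It is proved here for every
`r > 6` with `r ≡ 5 mod 8` for which `r - 1` is not divisible by nine.

There are two explicit families of first rows. If `m = r - 1 = 8 n + 4` is not divisible by three,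
then `c (4 t) = -2 t`, `c (4 t + 1) = 4 n - 3 - 8 t + e`, `c (4 t + 2) = 7 + 8 t + e`,
`c (4 t + 3) = 2 + 2 t` modulo `m`, where `e = 0` for `t < n` and `e = m / 2` for `t ≥ n`. If
`m = 24 n + 12` is not divisible by nine, then `c (12 t + s)` is `2 + 18 t`, `12 n - 1 + 6 t`,
`12 n - 7 - 6 t`, `4 + 18 t`, `12 n - 3 - 6 t`, `6 t`, `-12 n - 2 + 18 t`, `-6 - 6 t`,
`-12 n - 4 + 18 t`, `12 n + 3 + 6 t`, `-5 - 6 t`, `7 + 6 t` for `s = 0, …, 11`.
-/

namespace Pool.Agent.Results.MP_162c7e_co.FiveModEight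

open Pool.Agent.Results.MP_162c7e_co.SevenModEight

/-- Keedwell's condition (see `Good`), equivalent to the existence of an array `A_r^*`, holds for
every `r > 6` with `r ≡ 5 mod 8` and `r ≢ 1 mod 9`. -/
theorem result : ∀ r : ℕ, 6 < r → r % 8 = 5 → r % 9 ≠ 1 → Good r := by
  intro r h6 h8 h9
  by_cases h3 : r % 3 = 1
  · obtain ⟨n, rfl⟩ : ∃ n, r = 24 * n + 13 := ⟨(r - 13) / 24, by omega⟩
    exact Pool.Agent.V11283.KD.B.second n (by omega)
  · obtain ⟨n, rfl⟩ : ∃ n, r = 8 * n + 5 := ⟨(r - 5) / 8, by omega⟩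
    exact Pool.Agent.V11283.KD.A.first n (by omega) (by omega)

end Pool.Agent.Results.MP_162c7e_co.FiveModEight
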